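import Pool.Agent.helper3.T6R.Spec

/-!
# MP_16912e, T6R, row RCL: the classes of one real quadratic field
-/

set_option autoImplicit false

namespace Pool.Agent.T6R

open Finset NumberField Pool.Agent.helper3.FT Pool.Agent.helper47.RA Pool.Agent.T5 Pool.Agent.T6
open scoped nonZeroDivisors

open Classical in
/-- the class of an ideal (`1` for the zero ideal) -/
noncomputable def RCL_cl {K : Type} [Field K] [NumberField K] (a : Ideal (𝓞 K)) : ClassGroup (𝓞 K) :=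
  if h : a ∈ (Ideal (𝓞 K))⁰ then ClassGroup.mk0 ⟨a, h⟩ else 1

theorem RCL_cl_eq {K : Type} [Field K] [NumberField K] (a : (Ideal (𝓞 K))⁰) :
    RCL_cl (a : Ideal (𝓞 K)) = ClassGroup.mk0 a := by
  unfold RCL_cl
  rw [dif_pos a.2]

/-- dyadic position of a number `m ∈ (0, M]` -/
theorem RCL_dyad (M m : ℝ) (hm : 0 < m) (hM : m ≤ M) :
    ∃ i : ℕ, m ≤ M / 2 ^ i ∧ M / 2 ^ (i + 1) < m := by
  have hx : 1 ≤ M / m := by
    rw [le_div_iff₀ hm]
    linarith
  obtain ⟨i, hi1, hi2⟩ := exists_nat_pow_near hx (by norm_num : (1 : ℝ) < 2)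
  refine ⟨i, ?_, ?_⟩
  · rw [le_div_iff₀ hm] at hi1
    rw [le_div_iff₀ (by positivity)]
    linarith
  · rw [div_lt_iff₀ hm] at hi2
    rw [div_lt_iff₀ (by positivity)]
    linarith

/-- the injection `c ↦ c²` -/
theorem RCL_half {G : Type} [CommGroup G] [Fintype G] [DecidableEq G] (m : G → ℝ) (hinv : ∀ c, c ^ 5 = 1 → m c⁻¹ = m c) :
    (univ.filter fun c : G => c ^ 5 = 1).card ≤
      1 + 2 * (univ.filter fun c : G => (c ^ 5 = 1 ∧ c ≠ 1) ∧ m c ≤ m (c ^ 2)).card := by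
  have hpow : ∀ c : G, c ^ 5 = 1 → (c ^ 2) ^ 2 = c⁻¹ := by
    intro c hc
    rw [← pow_mul]
    have h1 : c ^ (2 * 2) * c = 1 := by
      rw [← pow_succ]
      exact hc
    exact eq_inv_of_mul_eq_one_left h1
  have hsub : (univ.filter fun c : G => c ^ 5 = 1) ⊆
      {1} ∪ ((univ.filter fun c : G => (c ^ 5 = 1 ∧ c ≠ 1) ∧ m c ≤ m (c ^ 2)) ∪
        (univ.filter fun c : G => (c ^ 5 = 1 ∧ c ≠ 1) ∧ ¬ m c ≤ m (c ^ 2))) := by
    intro c hc
    have hc5 := (mem_filter.mp hc).2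
    by_cases h1 : c = 1
    · rw [mem_union, mem_singleton]
      exact Or.inl h1
    · rw [mem_union, mem_union]
      right
      by_cases h2 : m c ≤ m (c ^ 2)
      · exact Or.inl (mem_filter.mpr ⟨mem_univ _, ⟨hc5, h1⟩, h2⟩)
      · exact Or.inr (mem_filter.mpr ⟨mem_univ _, ⟨hc5, h1⟩, h2⟩)
  have hinj : (univ.filter fun c : G => (c ^ 5 = 1 ∧ c ≠ 1) ∧ ¬ m c ≤ m (c ^ 2)).card ≤
      (univ.filter fun c : G => (c ^ 5 = 1 ∧ c ≠ 1) ∧ m c ≤ m (c ^ 2)).card := by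
    apply card_le_card_of_injOn (fun c => c ^ 2)
    · intro c hc
      rw [mem_coe, mem_filter] at hc
      obtain ⟨-, ⟨hc5, hc1⟩, hc2⟩ := hc
      rw [mem_coe, mem_filter]
      refine ⟨mem_univ _, ⟨?_, ?_⟩, ?_⟩
      · rw [← pow_mul, mul_comm, pow_mul, hc5, one_pow]
      · intro h
        apply hc1
        have h2 := hpow c hc5
        have h' : c ^ 2 = 1 := h
        rw [h', one_pow] at h2
        exact inv_eq_one.mp h2.symm
      · show m (c ^ 2) ≤ m ((c ^ 2) ^ 2)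
        rw [hpow c hc5, hinv c hc5]
        exact (not_le.mp hc2).le
    · intro c hc c' hc' h
      rw [mem_coe, mem_filter] at hc hc'
      have h1 := hpow c hc.2.1.1
      have h2 := hpow c' hc'.2.1.1
      simp only at h
      rw [h, h2] at h1
      exact (inv_injective h1).symm
  have h3 := (card_le_card hsub).trans (card_union_le _ _)
  have h4 := card_union_le (univ.filter fun c : G => (c ^ 5 = 1 ∧ c ≠ 1) ∧ m c ≤ m (c ^ 2))
    (univ.filter fun c : G => (c ^ 5 = 1 ∧ c ≠ 1) ∧ ¬ m c ≤ m (c ^ 2))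
  rw [card_singleton] at h3
  omega

theorem RCL_pow5 (x : ℝ) (hx : 0 ≤ x) : (x ^ (1 / 5 : ℝ)) ^ 5 = x := by
  rw [← Real.rpow_natCast, ← Real.rpow_mul hx]
  norm_num

/-- the norm of `a` -/
theorem RCL_norm (hREM : REM_stmt) {K : Type} [Field K] [NumberField K] (Q : QF K) (hD : 0 < Q.D) (a : Ideal (𝓞 K)) (θ : 𝓞 K)
    (h : Ideal.span {θ} = a ^ 5) : (Ideal.absNorm a : ℝ) = xA Q θ * xB Q θ := by
  have h1 := (hREM K Q hD).2.2.2.1 θ
  rw [h, map_pow] at h1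
  have h2 : (xA Q θ * xB Q θ) ^ 5 = |emA Q θ * emB Q θ| := by
    unfold xA xB
    rw [mul_pow, RCL_pow5 _ (abs_nonneg _), RCL_pow5 _ (abs_nonneg _), abs_mul]
  have h3 : (Ideal.absNorm a : ℝ) ^ 5 = (xA Q θ * xB Q θ) ^ 5 := by
    rw [h2, ← h1]
    push_cast
    rfl
  have h4 : 0 ≤ xA Q θ * xB Q θ := by
    unfold xA xB
    positivity
  exact (pow_left_inj₀ (Nat.cast_nonneg _) h4 (by norm_num)).1 h3

theorem RCL_fin (hREM : REM_stmt) {K : Type} [Field K] [NumberField K] (Q : QF K) (hD : 0 < Q.D) (Y l : ℝ) :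
    (IMset Q Y l).Finite := by
  refine (Ideal.finite_setOf_absNorm_le ⌊Y⌋₊).subset ?_
  rintro a ⟨θ, hθ⟩
  have h1 := RCL_norm hREM Q hD a θ hθ.th
  have h2 := hθ.y2
  have h3 : 0 ≤ (xA Q θ - xB Q θ) ^ 2 := sq_nonneg _
  have h4 : (Ideal.absNorm a : ℝ) ≤ Y := by
    unfold sz at h2
    have h5 : 0 ≤ xA Q θ * xB Q θ := by
      rw [← h1]
      exact Nat.cast_nonneg _
    rw [h1]
    nlinarith
  exact Nat.le_floor h4

theorem RCL (hREM : REM_stmt) (hRLB : RLB_stmt) (hRMU : RMU_stmt) : RCL_stmt := by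
  intro K _ _ Q hK hD M I J L hM hML
  classical
  obtain ⟨h1, -, h3, h4, h5⟩ := hRMU K Q hD
  have hfin : ∀ Y l : ℝ, (IMset Q Y l).Finite := fun Y l => RCL_fin hREM Q hD Y l
  have hfinC : ∀ U : ℝ, (CC Q U).Finite := fun U => Set.toFinite _
  have hcard : Nat.card {x : ClassGroup (𝓞 K) // x ^ 5 = 1} =
      (univ.filter fun c : ClassGroup (𝓞 K) => c ^ 5 = 1).card := by
    rw [Nat.card_eq_fintype_card, Fintype.card_subtype]
  have hhalf := RCL_half (G := ClassGroup (𝓞 K)) (Mn Q) (fun c hc => (h3 c hc).2.1)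
  have hP : (univ.filter fun c : ClassGroup (𝓞 K) => (c ^ 5 = 1 ∧ c ≠ 1) ∧ Mn Q c ≤ Mn Q (c ^ 2)) ⊆
      (((range I).biUnion fun i => (range (i + 1)).biUnion fun j =>
        ((hfin (M / 2 ^ i) (M / 2 ^ (j + 1))).toFinset).image RCL_cl) ∪
      ((Ico I L).biUnion fun i => (range J).biUnion fun j =>
        ((hfin (M / 2 ^ i) (M / 2 ^ (j + 1))).toFinset).image RCL_cl)) ∪ (hfinC (M / 2 ^ J)).toFinset := by
    intro c hc
    obtain ⟨-, ⟨hc5, hc1⟩, hc2⟩ := mem_filter.mp hc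
    obtain ⟨a, θ, hac, hth, hsz⟩ := h1 c hc5
    have hprim : Prim (a : Ideal (𝓞 K)) := h4 a θ hth (by rw [hac, hsz])
    have ha0 : (a : Ideal (𝓞 K)) ≠ ⊥ := by
      intro h
      exact mem_nonZeroDivisors_iff_ne_zero.mp a.2 h
    have hθ0 : θ ≠ 0 := by
      intro h
      have h6 : (a : Ideal (𝓞 K)) ^ 5 = ⊥ := by
        rw [← hth, h]
        exact Ideal.span_singleton_eq_bot.2 rfl
      exact ha0 (eq_zero_of_pow_eq_zero h6)
    have hnp : ¬ (a : Ideal (𝓞 K)).IsPrincipal := by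
      intro h6
      apply hc1
      rw [← hac]
      exact (ClassGroup.mk0_eq_one_iff a.2).mpr h6
    obtain ⟨heA, heB⟩ := (hREM K Q hD).2.2.2.2.2.1 θ hθ0
    have hxA : 0 < xA Q θ := by
      unfold xA
      exact Real.rpow_pos_of_pos (abs_pos.2 heA) _
    have hxB : 0 < xB Q θ := by
      unfold xB
      exact Real.rpow_pos_of_pos (abs_pos.2 heB) _
    have hI0 : (a : Ideal (𝓞 K)) ^ 2 ≠ ⊥ := fun h => ha0 (eq_zero_of_pow_eq_zero h)
    obtain ⟨e₁, e₂, hBAS, hmin, hle⟩ := hRLB K Q hD ((a : Ideal (𝓞 K)) ^ 2) hI0 (xA Q θ ^ 2) (xB Q θ ^ 2)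
      (pow_pos hxA 2) (pow_pos hxB 2)
    have hN : (Ideal.absNorm ((a : Ideal (𝓞 K)) ^ 2) : ℝ) = xA Q θ ^ 2 * xB Q θ ^ 2 := by
      rw [map_pow]
      push_cast
      rw [RCL_norm hREM Q hD a θ hth, mul_pow]
    have hlam : qf Q θ e₁ ≤ M := by
      rw [hN] at hle
      have h6 : 0 < xA Q θ ^ 2 * xB Q θ ^ 2 := mul_pos (pow_pos hxA 2) (pow_pos hxB 2)
      have h7 : xA Q θ ^ 2 * xB Q θ ^ 2 * qf Q θ e₁ ≤ xA Q θ ^ 2 * xB Q θ ^ 2 * (2 * √(Q.D : ℝ)) := by
        unfold qf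
        linarith
      exact (le_of_mul_le_mul_left h7 h6).trans hM
    have h52 := h5 a θ hth e₁ hBAS.m1 hBAS.ne
    rw [hac] at h52
    obtain ⟨hmu2, -, -⟩ := h3 c hc5
    have hszle : sz Q θ ≤ qf Q θ e₁ := by
      rw [hsz]
      exact hc2.trans h52
    have hsz2 : 2 ≤ sz Q θ := by
      rw [hsz]
      exact hmu2
    have hM0 : 0 < M := by linarith
    obtain ⟨i, hi1, hi2⟩ := RCL_dyad M (sz Q θ) (by linarith) (by linarith)
    obtain ⟨j, hj1, hj2⟩ := RCL_dyad M (qf Q θ e₁) (by linarith) hlam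
    have hji : j ≤ i := by
      by_contra hcon
      have h6 : i + 1 ≤ j := by omega
      have h7 : M / 2 ^ j ≤ M / 2 ^ (i + 1) :=
        div_le_div_of_nonneg_left hM0.le (by positivity) (pow_le_pow_right₀ (by norm_num) h6)
      linarith
    have hiL : i < L := by
      by_contra hcon
      have h6 : (2 : ℝ) ^ L ≤ 2 ^ i := pow_le_pow_right₀ (by norm_num) (by omega)
      have h7 : M / 2 ^ i < 1 := by
        rw [div_lt_one (by positivity)]
        linarith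
      linarith
    have hIMR : IMR Q (M / 2 ^ i) (M / 2 ^ (j + 1)) (a : Ideal (𝓞 K)) θ := by
      refine ⟨ha0, hprim, hth, hnp, ?_, hi1, ?_, ?_⟩
      · rw [div_div, ← pow_succ]
        exact hi2
      · intro α hα hα0
        exact lt_of_lt_of_le hj2 (hmin α hα hα0)
      · refine ⟨e₁, hBAS.m1, hBAS.ne, ?_⟩
        have h6 : 2 * (M / 2 ^ (j + 1)) = M / 2 ^ j := by
          rw [pow_succ]
          field_simp
        rw [h6]
        exact hj1
    rw [mem_union, mem_union]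
    by_cases hiI : i < I
    · left
      left
      rw [mem_biUnion]
      refine ⟨i, mem_range.mpr hiI, ?_⟩
      rw [mem_biUnion]
      refine ⟨j, mem_range.mpr (by omega), ?_⟩
      rw [mem_image]
      refine ⟨(a : Ideal (𝓞 K)), ?_, by rw [RCL_cl_eq, hac]⟩
      rw [Set.Finite.mem_toFinset]
      exact ⟨θ, hIMR⟩
    · by_cases hjJ : j < J
      · left
        right
        rw [mem_biUnion]
        refine ⟨i, mem_Ico.mpr ⟨by omega, hiL⟩, ?_⟩
        rw [mem_biUnion]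
        refine ⟨j, mem_range.mpr hjJ, ?_⟩
        rw [mem_image]
        refine ⟨(a : Ideal (𝓞 K)), ?_, by rw [RCL_cl_eq, hac]⟩
        rw [Set.Finite.mem_toFinset]
        exact ⟨θ, hIMR⟩
      · right
        rw [Set.Finite.mem_toFinset]
        have h6 : M / 2 ^ j ≤ M / 2 ^ J :=
          div_le_div_of_nonneg_left hM0.le (by positivity) (pow_le_pow_right₀ (by norm_num) (by omega))
        exact ⟨hc1, hc5, a, θ, hac, hprim, hth, by linarith, e₁, hBAS.m1, hBAS.ne, by linarith⟩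
  have himg : ∀ (S : Finset ℕ) (T : ℕ → Finset ℕ), (S.biUnion fun i => (T i).biUnion fun j =>
        ((hfin (M / 2 ^ i) (M / 2 ^ (j + 1))).toFinset).image RCL_cl).card ≤
      ∑ i ∈ S, ∑ j ∈ T i, (IMset Q (M / 2 ^ i) (M / 2 ^ (j + 1))).ncard := by
    intro S T
    refine card_biUnion_le.trans (sum_le_sum fun i _ => ?_)
    refine card_biUnion_le.trans (sum_le_sum fun j _ => ?_)
    refine card_image_le.trans (le_of_eq ?_)
    exact (Set.ncard_eq_toFinset_card _ (hfin (M / 2 ^ i) (M / 2 ^ (j + 1)))).symm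
  have hPc : (univ.filter fun c : ClassGroup (𝓞 K) => (c ^ 5 = 1 ∧ c ≠ 1) ∧ Mn Q c ≤ Mn Q (c ^ 2)).card ≤
      (∑ i ∈ range I, ∑ j ∈ range (i + 1), (IMset Q (M / 2 ^ i) (M / 2 ^ (j + 1))).ncard) +
        (∑ i ∈ Ico I L, ∑ j ∈ range J, (IMset Q (M / 2 ^ i) (M / 2 ^ (j + 1))).ncard) + (CC Q (M / 2 ^ J)).ncard := by
    refine (card_le_card hP).trans ((card_union_le _ _).trans ?_)
    have hC : (hfinC (M / 2 ^ J)).toFinset.card = (CC Q (M / 2 ^ J)).ncard :=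
      (Set.ncard_eq_toFinset_card _ (hfinC (M / 2 ^ J))).symm
    rw [hC]
    apply Nat.add_le_add_right
    refine (card_union_le _ _).trans ?_
    exact Nat.add_le_add (himg (range I) fun i => range (i + 1)) (himg (Ico I L) fun _ => range J)
  have hfinal : Nat.card {x : ClassGroup (𝓞 K) // x ^ 5 = 1} ≤
      1 + 2 * ((∑ i ∈ range I, ∑ j ∈ range (i + 1), (IMset Q (M / 2 ^ i) (M / 2 ^ (j + 1))).ncard) +
        (∑ i ∈ Ico I L, ∑ j ∈ range J, (IMset Q (M / 2 ^ i) (M / 2 ^ (j + 1))).ncard) +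
        (CC Q (M / 2 ^ J)).ncard) := by
    rw [hcard]
    omega
  have h6 : ((Nat.card {x : ClassGroup (𝓞 K) // x ^ 5 = 1} : ℕ) : ℝ) ≤
      ((1 + 2 * ((∑ i ∈ range I, ∑ j ∈ range (i + 1), (IMset Q (M / 2 ^ i) (M / 2 ^ (j + 1))).ncard) +
        (∑ i ∈ Ico I L, ∑ j ∈ range J, (IMset Q (M / 2 ^ i) (M / 2 ^ (j + 1))).ncard) +
        (CC Q (M / 2 ^ J)).ncard) : ℕ) : ℝ) := by exact_mod_cast hfinal
  push_cast at h6
  exact h6

end Pool.Agent.T6R
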